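import Mathlib
import Pool.Agent.Helper303_RG.Fin
import Pool.Agent.NPC.Dec

set_option autoImplicit false

/-! # One sparse set of primes outside which every fixed polynomial can be solved -/

namespace Pool.Agent.Results.MP_6ac54e_lc.OneExceptionalSet

open Finset Polynomial

/-- `F` is computable in polynomial time: some function on bit strings computed by a Turing machine
(Mathlib's `TM2ComputableInPolyTime`) in polynomially many steps sends the binary digits of `p` to
the code of the list `F p`. -/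
def PolyTimeList (F : ℕ → List ℕ) : Prop :=
  ∃ f : List Bool → List Bool, NPC.PolyTime f ∧ ∀ p : ℕ, f (Nat.bits p) = NPC.bits (F p)

/-- The largest divisor of `N` all of whose prime factors are at most `y`. -/
def smoothPart (y N : ℕ) : ℕ := (N.divisors.filter fun d => ∀ q ∈ d.primeFactors, q ≤ y).sup id

section aux

open Helper303_RF Helper303_RG Filter

theorem irr_of_map {g : ℤ[X]} (hg : g.Monic) {p : ℕ} [Fact p.Prime]
    (h : Irreducible (g.map (Int.castRingHom (ZMod p)))) : Irreducible g ∧ 0 < g.natDegree := by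
  refine ⟨Monic.irreducible_of_irreducible_map _ _ hg h, ?_⟩
  rw [← hg.natDegree_map (Int.castRingHom (ZMod p))]
  exact h.natDegree_pos

theorem countable_poly : Countable ℤ[X] := by
  have h : Function.Injective (fun f : ℤ[X] => (List.range (f.natDegree + 1)).map f.coeff) := by
    intro f g h
    simp only at h
    have h1 := congrArg List.length h
    simp only [List.length_map, List.length_range] at h1
    have h2 : f.natDegree = g.natDegree := by omega
    ext i
    by_cases hi : i < f.natDegree + 1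
    · have h3 := congrArg (fun l => l.getD i 0) h
      simp only [List.getD_eq_getElem?_getD, List.getElem?_map] at h3
      rw [List.getElem?_range hi, List.getElem?_range (by omega)] at h3
      simpa using h3
    · rw [coeff_eq_zero_of_natDegree_lt (by omega), coeff_eq_zero_of_natDegree_lt (by omega)]
  exact h.countable

open Classical in
theorem diag (Gs : List ℤ[X]) (hGs : ∀ g ∈ Gs, Irreducible g ∧ g.Monic ∧ 0 < g.natDegree)
    (B : ℕ) (ε : ℝ) (hε : 0 < ε) :
    ∃ E : Set ℕ,
      (∀ g ∈ Gs, ∀ x : ℕ, ∑ p ∈ (range (x + 1)).filter (fun p => p.Prime ∧ p ∈ E ∧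
        Irreducible (g.map (Int.castRingHom (ZMod p)))),
        (Helper303_RF.smoothPart (p.size ^ B) (p ^ g.natDegree - 1) : ℝ) ≤ (x : ℝ) ^ ε) ∧
      ∀ f : ℤ[X], 0 < f.natDegree → ∃ F : ℕ → List ℕ, NPC.Poly F ∧
        ∀ p : ℕ, p.Prime → (F p).Nodup ∧ (∀ r ∈ F p, r < p ∧ (p : ℤ) ∣ f.eval (r : ℤ)) ∧
          (p ∉ E → ∀ r < p, (p : ℤ) ∣ f.eval (r : ℤ) → r ∈ F p) := by
  have hε2 : 0 < ε / 2 := by positivity
  have := countable_poly
  obtain ⟨en, hen⟩ := exists_surjective_nat ℤ[X]
  have hs := fun (f : ℤ[X]) (hf : 0 < f.natDegree) => single Gs hGs f hf B (ε / 2) hε2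
  choose! F hF1 hF2 hF3 using hs
  -- thresholds
  set T : ℕ → ℕ := fun i => ⌈((i : ℝ) + 1) ^ (2 / ε)⌉₊ with hT
  have hTi : ∀ i x : ℕ, T i < x → ((i : ℝ) + 1) ≤ (x : ℝ) ^ (ε / 2) := by
    intro i x hx
    have h0 : (T i : ℝ) ≤ x := Nat.cast_le.2 hx.le
    have h1 : ((i : ℝ) + 1) ^ (2 / ε) ≤ x := (Nat.le_ceil _).trans h0
    calc ((i : ℝ) + 1) = (((i : ℝ) + 1) ^ (2 / ε)) ^ (ε / 2) := by
          rw [← Real.rpow_mul (by positivity)]
          have : 2 / ε * (ε / 2) = 1 := by field_simp
          rw [this, Real.rpow_one]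
      _ ≤ (x : ℝ) ^ (ε / 2) := Real.rpow_le_rpow (by positivity) h1 hε2.le
  set E : Set ℕ := {p | ∃ i, T i < p ∧ 0 < (en i).natDegree ∧
    ∃ r : ℕ, r < p ∧ (p : ℤ) ∣ (en i).eval (r : ℤ) ∧ r ∉ F (en i) p} with hE
  refine ⟨E, ?_, ?_⟩
  · intro g hg x
    set N := ⌊(x : ℝ) ^ (ε / 2)⌋₊ with hN
    have hxe : (N : ℝ) * (x : ℝ) ^ (ε / 2) ≤ (x : ℝ) ^ ε := by
      calc (N : ℝ) * (x : ℝ) ^ (ε / 2) ≤ (x : ℝ) ^ (ε / 2) * (x : ℝ) ^ (ε / 2) := by
            gcongr
            exact Nat.floor_le (by positivity)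
        _ = (x : ℝ) ^ ε := by
          rcases Nat.eq_zero_or_pos x with rfl | hx1
          · rw [Nat.cast_zero, Real.zero_rpow hε2.ne', Real.zero_rpow hε.ne', mul_zero]
          · rw [← Real.rpow_add (by exact_mod_cast hx1)]
            congr 1
            ring
    refine le_trans ?_ hxe
    set L := (List.range N).filter fun i => decide (0 < (en i).natDegree) with hL
    have hLN : (L.length : ℝ) ≤ N := by
      have : L.length ≤ (List.range N).length := List.length_filter_le _ _
      rw [List.length_range] at this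
      exact_mod_cast this
    refine le_trans ?_ (mul_le_mul_of_nonneg_right hLN (by positivity))
    apply sum_le_list L (fun i => (range (x + 1)).filter (fun p => p.Prime ∧
        (∃ r : ℕ, r < p ∧ (p : ℤ) ∣ (en i).eval (r : ℤ) ∧ r ∉ F (en i) p) ∧
        Irreducible (g.map (Int.castRingHom (ZMod p))))) _ (fun _ => Nat.cast_nonneg _)
    · intro i hi
      obtain ⟨-, h2⟩ := List.mem_filter.1 hi
      exact hF3 (en i) (by simpa using h2) g hg x
    · intro p hp
      obtain ⟨h1, h2, ⟨i, h3, h4, h5⟩, h6⟩ := mem_filter.1 hp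
      refine ⟨i, List.mem_filter.2 ⟨List.mem_range.2 ?_, by simpa using h4⟩,
        mem_filter.2 ⟨h1, h2, h5, h6⟩⟩
      have h7 := hTi i x (lt_of_lt_of_le h3 (by have := mem_range.1 h1; omega))
      have h8 : i + 1 ≤ N := Nat.le_floor (by push_cast; exact h7)
      omega
  · intro f hf
    obtain ⟨i, hi⟩ := hen f
    set Tb : ℕ → List ℕ := fun p => (List.range p).filter
      fun r : ℕ => decide ((p : ℤ) ∣ f.eval (r : ℤ)) with hTb
    refine ⟨tabled (T i) Tb (F f), NPC.H303.poly_tabled _ _ (hF1 f hf), fun p hp => ?_⟩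
    by_cases hpT : p ≤ T i
    · have h1 : tabled (T i) Tb (F f) p = Tb p := by
        unfold tabled
        rw [if_pos hpT]
      rw [h1, hTb]
      refine ⟨List.nodup_range.filter _, ?_, ?_⟩
      · intro r hr
        obtain ⟨h1, h2⟩ := List.mem_filter.1 hr
        exact ⟨List.mem_range.1 h1, by simpa using h2⟩
      · intro _ r hr h2
        exact List.mem_filter.2 ⟨List.mem_range.2 hr, by simpa using h2⟩
    · have h1 : tabled (T i) Tb (F f) p = F f p := by
        unfold tabled
        rw [if_neg hpT]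
      rw [h1]
      refine ⟨(hF2 f hf p hp).1, (hF2 f hf p hp).2, ?_⟩
      intro hpE r hr h2
      by_contra h3
      apply hpE
      rw [hE]
      exact ⟨i, by omega, by rw [hi]; exact hf, r, hr, by rw [hi]; exact h2, by rw [hi]; exact h3⟩

end aux

open Classical Helper303_RF Filter in
/-- For every `B`, every `ε > 0` and every finite set of monic polynomials `g` there is one set `E`
of primes such that

* for every `x`, the sum over the primes `p ≤ x` in `E` of the largest divisor of `p - 1` all of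
  whose prime factors are at most `(size p) ^ B` is at most `x ^ ε`;
* for every `g` in the finite set and every `x`, the sum over the primes `p ≤ x` in `E` modulo which
  `g` is irreducible of the largest divisor of `p ^ deg g - 1` all of whose prime factors are at
  most `(size p) ^ B` is at most `x ^ ε`;
* for every nonconstant `f ∈ ℤ[x]` there is a polynomial-time computable `F` such that, for every
  prime `p`, `F p` is a list without repetitions of roots of `f` modulo `p`, which is complete
  unless `p ∈ E`. -/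
theorem result (Gs : Finset ℤ[X]) (hGs : ∀ g ∈ Gs, g.Monic) (B : ℕ) (ε : ℝ) (hε : 0 < ε) :
    ∃ E : Set ℕ,
      (∀ x : ℕ, ∑ p ∈ (range (x + 1)).filter (fun p => p.Prime ∧ p ∈ E),
        (smoothPart (p.size ^ B) (p - 1) : ℝ) ≤ (x : ℝ) ^ ε) ∧
      (∀ g ∈ Gs, ∀ x : ℕ, ∑ p ∈ (range (x + 1)).filter (fun p => p.Prime ∧ p ∈ E ∧
        Irreducible (g.map (Int.castRingHom (ZMod p)))),
        (smoothPart (p.size ^ B) (p ^ g.natDegree - 1) : ℝ) ≤ (x : ℝ) ^ ε) ∧
      ∀ f : ℤ[X], 0 < f.natDegree → ∃ F : ℕ → List ℕ, PolyTimeList F ∧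
        ∀ p : ℕ, p.Prime → (F p).Nodup ∧ (∀ r ∈ F p, r < p ∧ (p : ℤ) ∣ f.eval (r : ℤ)) ∧
          (p ∉ E → ∀ r < p, (p : ℤ) ∣ f.eval (r : ℤ) → r ∈ F p) := by
  set L : List ℤ[X] := X :: Gs.toList.filter (fun g => decide (Irreducible g ∧ 0 < g.natDegree))
    with hL
  have hLp : ∀ g ∈ L, Irreducible g ∧ g.Monic ∧ 0 < g.natDegree := by
    intro g hg
    rcases List.mem_cons.1 hg with rfl | hg
    · exact ⟨irreducible_X, monic_X, by rw [natDegree_X]; exact one_pos⟩
    · obtain ⟨h1, h2⟩ := List.mem_filter.1 hg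
      rw [decide_eq_true_iff] at h2
      exact ⟨h2.1, hGs g (mem_toList.1 h1), h2.2⟩
  obtain ⟨E, hE1, hE2⟩ := diag L hLp B ε hε
  refine ⟨E, ?_, ?_, ?_⟩
  · intro x
    refine le_trans (le_of_eq ?_) (hE1 X (List.mem_cons_self ..) x)
    apply sum_congr
    · apply filter_congr
      intro p _
      constructor
      · rintro ⟨h1, h2⟩
        have := Fact.mk h1
        refine ⟨h1, h2, ?_⟩
        rw [Polynomial.map_X]
        exact irreducible_X
      · rintro ⟨h1, h2, -⟩
        exact ⟨h1, h2⟩
    · intro p _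
      rw [natDegree_X, pow_one]
      rfl
  · intro g hg x
    by_cases hgL : g ∈ L
    · exact hE1 g hgL x
    · rw [filter_false_of_mem, sum_empty]
      · positivity
      · rintro p - ⟨h1, -, h3⟩
        have := Fact.mk h1
        apply hgL
        refine List.mem_cons_of_mem _ (List.mem_filter.2 ⟨mem_toList.2 hg, ?_⟩)
        rw [decide_eq_true_iff]
        exact irr_of_map (hGs g hg) h3
  · intro f hf
    obtain ⟨F, h1, h2⟩ := hE2 f hf
    refine ⟨F, ⟨fun x => NPC.bits (F (NPC.valB x)), NPC.polyTime_bits (h1.comp (NPC.Poly.valBits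
      NPC.Poly.id)), fun p => ?_⟩, h2⟩
    simp only [NPC.valB_bits]

end Pool.Agent.Results.MP_6ac54e_lc.OneExceptionalSet
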